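import Pool.Agent.Helper33.TQ.Fin3

/-!
If `P^SAT[1] = P_||^SAT[2]` then every language in `AM` is in `NP` with three bits of advice.

The definitions used by the statement are in `Pool/Agent/Helper33/TQ/Defs.lean` (bounded query
classes, `AM`, advice) and `Pool/Agent/Helper72/Defs.lean` (formulas, `SAT`, `P`, `NP`, codes of
pairs). Machines are the Turing machines of Mathlib.
-/

namespace Pool.Agent.Results.MP_856fa1_lc.TwoQueriesAMinNP3

open Pool.Agent.Helper33.TQ

/-- The two queries assumption implies that `AM` is contained in `NP_{/3}`; in particular there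
is a constant `k` with `AM ⊆ NP_{/k}`. -/
theorem result (h : ∀ L : Set (List Bool), InPSAT1 L ↔ InPSAT2 L) :
    ∀ L : Set (List Bool), InAM L → InNPAdvice 3 L :=
  fun _ hL => main (fun L hL' => (h L).2 hL') hL

end Pool.Agent.Results.MP_856fa1_lc.TwoQueriesAMinNP3
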